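import Pool.Agent.Q142.GK.GCR1

/-!
# Project GK (helper7), job GCLS: the class at a split place `v ∈ G`
-/

set_option autoImplicit false
set_option linter.unusedSectionVars false

namespace Pool.Agent.Q142.GK

open NumberField IsDedekindDomain Filter Topology Finset
open Pool.Agent.Q7.LK
open Pool.Agent.Q7.LS (Ab Un nmU SUn NS IsBas)
open Pool.Agent.Q7.GK
open Pool.Agent.W289.SL (IsIwasawaLog)
open Pool.Agent.Q224.LK (norm_eq)

section aux

variable {p : ℕ} [hp : Fact p.Prime] {L : Type} [Field L] [NumberField L] {Lg : ℂ_[p] → ℂ_[p]}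
  {P : HeightOneSpectrum (𝓞 L)}

theorem lam_prodL (h : ∀ x y : L, x ≠ 0 → y ≠ 0 → lam Lg P (x * y) = lam Lg P x + lam Lg P y) {ι : Type}
    (s : Finset ι) (f : ι → L) (hf : ∀ i ∈ s, f i ≠ 0) :
    lam Lg P (∏ i ∈ s, f i) = ∑ i ∈ s, lam Lg P (f i) := by
  classical
  induction s using Finset.induction_on with
  | empty =>
    have h1 := h 1 1 one_ne_zero one_ne_zero
    rw [mul_one] at h1
    have h2 : lam Lg P (1 : L) = 0 := left_eq_add.1 h1
    rw [Finset.prod_empty, Finset.sum_empty, h2]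
  | insert a s ha ih =>
    rw [Finset.prod_insert ha, Finset.sum_insert ha, h _ _ (hf a (Finset.mem_insert_self a s))
      (Finset.prod_ne_zero_iff.2 fun i hi => hf i (Finset.mem_insert_of_mem hi)),
      ih fun i hi => hf i (Finset.mem_insert_of_mem hi)]

theorem norm_p_lt : ‖(p : ℂ_[p])‖ < 1 := by
  have h4 : (p : ℂ_[p]) = κ (p : ℤ_[p]) := (map_natCast κ p).symm
  rw [h4, κ_norm, PadicInt.norm_p]
  exact inv_lt_one_of_one_lt₀ (by exact_mod_cast hp.out.one_lt)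

end aux

/-- **GCLS** -/
theorem gcls : S_GQ → S_GN → S_GC → S_GS → S_GCLS := by
  intro hQ hN hC hS p hp hp2 Lg hLg F L _ _ _ _ _ ζ d hζ hK hd σ hσ v hv hl w hw y hy0 hy
  obtain ⟨-, x₀, hx0, hlx0, hmax⟩ := hC p hp2 Lg hLg F v hv
  have haddF := (hQ p hp2 Lg hLg F v hv).1
  have hNy : Algebra.norm F y ≠ 0 := by
    rw [ne_eq, Algebra.norm_eq_zero_iff]; exact hy0
  have hp0 : (0 : ℝ) < ‖(p : ℂ_[p])‖ := norm_pos_iff.2 (by exact_mod_cast hp.out.ne_zero)
  have hl0 : 0 < ‖lam Lg v x₀‖ := norm_pos_iff.2 hlx0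
  -- a prime above `v`
  obtain ⟨P, hP⟩ : ∃ P : HeightOneSpectrum (𝓞 L), Ab v P := by
    by_contra hcon
    push Not at hcon
    obtain ⟨A, hA, hsum⟩ := (hN p Lg hLg F L).1 v hv
    have hA0 : A = ∅ := Finset.eq_empty_iff_forall_notMem.2 fun P hP => hcon P ((hA P).1 hP)
    have h1 := hsum (algebraMap F L x₀) (by
      rw [Ne, map_eq_zero_iff _ (algebraMap F L).injective]; exact hx0)
    rw [hA0, Finset.sum_empty, Algebra.norm_algebraMap, hK.deg] at h1
    have h2 : lam Lg v (x₀ ^ p) = (p : ℂ_[p]) * lam Lg v x₀ := by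
      have h3 := lam_prodL haddF (Finset.range p) (fun _ => x₀) (fun _ _ => hx0)
      rw [Finset.prod_const, Finset.sum_const, Finset.card_range, nsmul_eq_mul] at h3
      exact h3
    rw [h2] at h1
    rcases mul_eq_zero.1 h1.symm with h3 | h3
    · exact absurd h3 (by exact_mod_cast hp.out.ne_zero)
    · exact hlx0 h3
  -- additivity
  have hadd : ∀ P : HeightOneSpectrum (𝓞 L), Ab v P →
      ∀ x y : L, x ≠ 0 → y ≠ 0 → lam Lg P (x * y) = lam Lg P x + lam Lg P y := fun P hP =>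
    (hQ p hp2 Lg hLg L P (above hv hP)).1
  -- all values are bounded by that of `x₀`
  have hbd : ∀ P : HeightOneSpectrum (𝓞 L), Ab v P → ∀ z : L, z ≠ 0 → ‖lam Lg P z‖ ≤ ‖lam Lg v x₀‖ := by
    intro P hP z hz
    obtain ⟨N, hN1⟩ := exists_pow_lt_of_lt_one hl0 (norm_p_lt (p := p))
    obtain ⟨x, hx, hx1⟩ := (hS p hp2 Lg hLg F L ζ d hζ hK hd v hv hl P hP).2 z hz N
    have h1 : lam Lg P z = (lam Lg P z - lam Lg v x) + lam Lg v x := by ring
    rw [h1]
    refine (IsUltrametricDist.norm_add_le_max _ _).trans (max_le ?_ (hmax x hx))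
    exact hx1.trans hN1.le
  -- the conjugates of `w`
  have hw' : ∀ k : ℕ, ‖lam Lg P ((σ ^ k) (w : L))‖ ≤ ‖(p : ℂ_[p])‖ * ‖lam Lg v x₀‖ := by
    intro k
    obtain ⟨P', hP'1, -, hP'2⟩ := (hN p Lg hLg F L).2 (σ ^ k) P
    have hP' := hP'1 v hP
    rw [← hP'2]
    obtain ⟨N, hN1⟩ := exists_pow_lt_of_lt_one (mul_pos hp0 hl0) (norm_p_lt (p := p))
    obtain ⟨η, hη⟩ := hw N
    have h1 : lam Lg P' ((w * η ^ p : Lˣ) : L) = lam Lg P' (w : L) + (p : ℂ_[p]) * lam Lg P' (η : L) := by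
      rw [Units.val_mul, hadd P' hP' _ _ w.ne_zero (Units.ne_zero _), lam_pow (hadd P' hP')]
    have h2 : lam Lg P' (w : L) = lam Lg P' ((w * η ^ p : Lˣ) : L) + -((p : ℂ_[p]) * lam Lg P' (η : L)) := by
      rw [h1]; ring
    rw [h2]
    refine (IsUltrametricDist.norm_add_le_max _ _).trans (max_le ((hη P' hP').trans hN1.le) ?_)
    rw [norm_neg, norm_mul]
    exact mul_le_mul_of_nonneg_left (hbd P' hP' _ η.ne_zero) hp0.le
  -- the conjugates of `y`
  have hyk : ∀ k : ℕ, (σ ^ k) y ≠ 0 := fun k => by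
    rw [Ne, EmbeddingLike.map_eq_zero_iff]; exact hy0
  have hwk : ∀ k : ℕ, (σ ^ k) (w : L) ≠ 0 := fun k => by
    rw [Ne, EmbeddingLike.map_eq_zero_iff]; exact w.ne_zero
  have he : ∀ k : ℕ, ‖lam Lg P ((σ ^ k) y) - lam Lg P y‖ ≤ ‖(p : ℂ_[p])‖ * ‖lam Lg v x₀‖ := by
    intro k
    induction k with
    | zero =>
      rw [pow_zero, AlgEquiv.one_apply, sub_self, norm_zero]
      exact mul_nonneg hp0.le hl0.le
    | succ k ih =>
      have h1 : (σ ^ (k + 1)) y = (σ ^ k) (w : L) * (σ ^ k) y := by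
        rw [pow_succ, AlgEquiv.mul_apply, ← hy, map_mul]
      have h2 : lam Lg P ((σ ^ (k + 1)) y) - lam Lg P y =
          lam Lg P ((σ ^ k) (w : L)) + (lam Lg P ((σ ^ k) y) - lam Lg P y) := by
        rw [h1, hadd P hP _ _ (hwk k) (hyk k)]
        ring
      rw [h2]
      exact (IsUltrametricDist.norm_add_le_max _ _).trans (max_le (hw' k) ih)
  refine ⟨hNy, x₀, hx0, ?_⟩
  have h1 := (hS p hp2 Lg hLg F L ζ d hζ hK hd v hv hl P hP).1 (Algebra.norm F y) hNy
  rw [← h1, norm_eq hK.deg hσ, lam_prodL (hadd P hP) _ _ fun k _ => hyk k]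
  have h2 : ∑ k ∈ range p, lam Lg P ((σ ^ k) y) =
      (p : ℂ_[p]) * lam Lg P y + ∑ k ∈ range p, (lam Lg P ((σ ^ k) y) - lam Lg P y) := by
    rw [Finset.sum_sub_distrib, Finset.sum_const, Finset.card_range, nsmul_eq_mul]
    ring
  rw [h2]
  refine (IsUltrametricDist.norm_add_le_max _ _).trans (max_le ?_ ?_)
  · rw [norm_mul]
    exact mul_le_mul_of_nonneg_left (hbd P hP y hy0) hp0.le
  · exact IsUltrametricDist.norm_sum_le_of_forall_le_of_nonneg (mul_nonneg hp0.le hl0.le) fun k _ => he k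

end Pool.Agent.Q142.GK
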