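import Pool.Agent.Q176.LS.CR1S
import Pool.Agent.Q7.GK.Stm

/-!
# Project GK (helper7), job GCR1: elements of relative norm `1` from relations

Adapted from `Pool/Agent/Q176/LS/CR1S.lean`.
-/

set_option autoImplicit false
set_option linter.unusedSectionVars false

namespace Pool.Agent.Q142.GK

open NumberField IsDedekindDomain Filter Topology Finset
open Pool.Agent.Q7.LK
open Pool.Agent.Q7.LS (Ab Un nmU SUn NS IsBas)
open Pool.Agent.Q7.GK
open Pool.Agent.W289.SL (IsIwasawaLog)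
open Pool.Agent.Q224.LK (ev ev_add ev_smul ev_neg ev_sub ev_sum ev_vec ev_map ev_inj dvd_int near_dvd exists_rep gI gI_coe gI_mem
  exists_quot norm_eq norm_conj)
open Pool.Agent.Q176.LS (gL gL_coe gL_iter un_conj)

section kappa

variable {p : ℕ} [hp : Fact p.Prime]

/-- the embedding of the `p`-adic integers -/
noncomputable def κ : ℤ_[p] →+* ℂ_[p] := (algebraMap ℚ_[p] ℂ_[p]).comp (PadicInt.Coe.ringHom (p := p))

theorem κ_eq (x : ℤ_[p]) : ((x : ℚ_[p]) : ℂ_[p]) = κ x := rfl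

theorem κ_norm (x : ℤ_[p]) : ‖κ x‖ = ‖x‖ := by
  rw [← κ_eq, PadicComplex.norm_extends']
  rfl

end kappa

section lamS

variable {p : ℕ} [hp : Fact p.Prime] {L : Type} [Field L] [NumberField L] {Lg : ℂ_[p] → ℂ_[p]}
  {P : HeightOneSpectrum (𝓞 L)}

/-- `lam` as a homomorphism -/
noncomputable def lamH (h : ∀ x y : L, x ≠ 0 → y ≠ 0 → lam Lg P (x * y) = lam Lg P x + lam Lg P y) :
    Lˣ →* Multiplicative ℂ_[p] where
  toFun x := Multiplicative.ofAdd (lam Lg P (x : L))
  map_one' := by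
    have h1 := h 1 1 one_ne_zero one_ne_zero
    rw [mul_one] at h1
    have h2 : lam Lg P (1 : L) = 0 := left_eq_add.1 h1
    rw [Units.val_one, h2]
    rfl
  map_mul' x y := by
    rw [Units.val_mul, h _ _ x.ne_zero y.ne_zero]
    rfl

theorem lam_ev (h : ∀ x y : L, x ≠ 0 → y ≠ 0 → lam Lg P (x * y) = lam Lg P x + lam Lg P y) {n : ℕ}
    (θ : Fin n → Lˣ) (m : Fin n → ℤ) :
    lam Lg P ((ev θ m : Lˣ) : L) = ∑ i, (m i : ℂ_[p]) * lam Lg P ((θ i : Lˣ) : L) := by
  have h1 : lam Lg P ((ev θ m : Lˣ) : L) = Multiplicative.toAdd (lamH h (ev θ m)) := rfl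
  rw [h1]
  unfold ev
  rw [map_prod, toAdd_prod]
  refine Finset.sum_congr rfl fun i _ => ?_
  rw [map_zpow, toAdd_zpow, zsmul_eq_mul]
  rfl

theorem lam_pow (h : ∀ x y : L, x ≠ 0 → y ≠ 0 → lam Lg P (x * y) = lam Lg P x + lam Lg P y)
    (x : Lˣ) (k : ℕ) : lam Lg P ((x ^ k : Lˣ) : L) = (k : ℂ_[p]) * lam Lg P (x : L) := by
  have h1 : lam Lg P ((x ^ k : Lˣ) : L) = Multiplicative.toAdd (lamH h (x ^ k)) := rfl
  rw [h1, map_pow, toAdd_pow, nsmul_eq_mul]
  rfl

end lamS

section rel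

variable {p : ℕ} [hp : Fact p.Prime] {F : Type} [Field F] [NumberField F] {L : Type} [Field L] [NumberField L] [Algebra F L]

/-- the module of the relations -/
def RelGS (Lg : ℂ_[p] → ℂ_[p]) (G : Set (HeightOneSpectrum (𝓞 F))) {n : ℕ} (θ : Fin n → Lˣ) :
    Submodule ℤ_[p] (Fin n → ℤ_[p]) where
  carrier := {a | RelG Lg G θ a}
  add_mem' := by
    intro a b ha hb v hv P hP
    have h1 := ha v hv P hP
    have h2 := hb v hv P hP
    simp only [κ_eq] at *
    rw [← add_zero (0 : ℂ_[p])]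
    nth_rewrite 1 [← h1]
    rw [← h2, ← Finset.sum_add_distrib]
    refine Finset.sum_congr rfl fun i _ => ?_
    rw [Pi.add_apply, map_add]
    ring
  zero_mem' := by
    intro v hv P hP
    simp only [κ_eq]
    exact Finset.sum_eq_zero fun i _ => by rw [Pi.zero_apply, map_zero, zero_mul]
  smul_mem' := by
    intro x a ha v hv P hP
    have h1 := ha v hv P hP
    simp only [κ_eq] at *
    rw [← mul_zero (κ x), ← h1, Finset.mul_sum]
    refine Finset.sum_congr rfl fun i _ => ?_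
    rw [Pi.smul_apply, smul_eq_mul, map_mul]
    ring

theorem above {v : HeightOneSpectrum (𝓞 F)} (hv : Dp p v) {P : HeightOneSpectrum (𝓞 L)} (hP : Ab v P) :
    (p : 𝓞 L) ∈ P.asIdeal := by
  have h1 : algebraMap (𝓞 F) (𝓞 L) (p : 𝓞 F) ∈ P.asIdeal := hP (Ideal.mem_map_of_mem _ hv)
  rwa [map_natCast] at h1

end rel

/-- **GCR1** -/
theorem gcr1' (hLAM : S_LAM) (hQ' : S_GQ) (hN' : S_GN) : S_GCR1 := by
  intro p hp hp2 Lg hLg F L _ _ _ _ _ ζ d hζ hK hd G hG m t hout hmt σ hσ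
  obtain ⟨n, θ, h, ⟨hh, hθN, hθind, hgen⟩, a, ha, hRel⟩ := hout
  -- additivity and integrality above `G`
  have hadd : ∀ v ∈ G, ∀ P : HeightOneSpectrum (𝓞 L), Ab v P →
      ∀ x y : L, x ≠ 0 → y ≠ 0 → lam Lg P (x * y) = lam Lg P x + lam Lg P y := fun v hv P hP =>
    (hQ' p hp2 Lg hLg L P (above (hG v hv) hP)).1
  have hint : ∀ v ∈ G, ∀ P : HeightOneSpectrum (𝓞 L), Ab v P →
      ∀ x : L, x ≠ 0 → ∃ r : ℤ_[p], lam Lg P x = κ r := fun v hv P hP =>
    (hQ' p hp2 Lg hLg L P (above (hG v hv) hP)).2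
  have hnm : ∀ u : Lˣ, Algebra.norm F (u : L) = 1 ↔ u ∈ (nmU F (L := L)).ker := by
    intro u
    rw [MonoidHom.mem_ker, Units.ext_iff]
    rfl
  have hevN : ∀ m : Fin n → ℤ, ev θ m ∈ NS L G := fun m =>
    Subgroup.prod_mem _ fun i _ => Subgroup.zpow_mem _ (hθN i) _
  have hgN : ∀ u ∈ NS L G, gL σ u ∈ NS L G := by
    intro u hu
    refine ⟨fun v hv => un_conj σ (hu.1 v hv), ?_⟩
    have h1 := (hnm u).2 hu.2
    refine (hnm _).1 ?_
    rw [gL_coe, norm_conj hK.deg hσ, h1]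
  -- the matrix of `σ`
  choose A hA using fun i => hgen (gL σ (θ i)) (hgN _ (hθN i))
  have hA' : ∀ i, gL σ (θ i) ^ h = ev θ (A i) ^ h := hA
  have hstep : ∀ m : Fin n → ℤ, gL σ (ev θ m) ^ h = ev θ (Matrix.vecMul m (Matrix.of A)) ^ h := by
    intro m
    rw [← ev_vec, ev_map]
    unfold ev
    rw [← Finset.prod_pow, ← Finset.prod_pow]
    refine Finset.prod_congr rfl fun i _ => ?_
    have := hA i
    rw [← zpow_natCast (gL σ (θ i) ^ m i), ← zpow_natCast (_ ^ m i), zpow_comm, zpow_comm _ (m i), zpow_natCast,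
      zpow_natCast, this]
    rfl
  have hpow : ∀ (k : ℕ) (i : Fin n), ((gL σ)^[k] (θ i)) ^ h = ev θ (((Matrix.of A) ^ k) i) ^ h := by
    intro k i
    induction k with
    | zero =>
      rw [Function.iterate_zero, id, pow_zero]
      congr 1
      unfold ev
      rw [Finset.prod_eq_single i]
      · rw [Matrix.one_apply_eq, zpow_one]
      · intro j _ hj
        rw [Matrix.one_apply_ne (Ne.symm hj), zpow_zero]
      · intro h; exact absurd (mem_univ i) h
    | succ k ih =>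
      rw [Function.iterate_succ_apply', ← map_pow, ih, map_pow, hstep, pow_succ]
      rfl
  have hsum0 : ∑ k ∈ range p, (Matrix.of A) ^ k = 0 := by
    ext i j
    have h1 : ∏ k ∈ range p, (gL σ)^[k] (θ i) = 1 := by
      apply Units.ext
      rw [Units.coe_prod, Finset.prod_congr rfl fun k _ => gL_iter σ k (θ i), ← norm_eq hK.deg hσ,
        (hnm _).2 (hθN i).2, map_one, Units.val_one]
    have h2 : ev θ (∑ k ∈ range p, ((Matrix.of A) ^ k) i) ^ h = ev θ 0 ^ h := by
      rw [ev_sum, ← Finset.prod_pow, ← Finset.prod_congr rfl fun k _ => hpow k i, Finset.prod_pow, h1]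
      simp [ev]
    have h3 := ev_inj hθind hh h2
    rw [Matrix.sum_apply]
    have h4 := congrFun h3 j
    rw [Finset.sum_apply] at h4
    exact h4
  set B : Matrix (Fin n) (Fin n) ℤ := Matrix.of A - 1 with hB
  have hsumB : ∑ i ∈ range p, (1 + B) ^ i = 0 := by
    have : (1 : Matrix (Fin n) (Fin n) ℤ) + B = Matrix.of A := by rw [hB]; abel
    rw [this, hsum0]
  have hhC : (h : ℂ_[p]) ≠ 0 := by exact_mod_cast hh.ne'
  -- the module of the relations
  have hstab : ∀ x ∈ RelGS Lg G θ, Matrix.vecMul x (B.map (Int.cast : ℤ → ℤ_[p])) ∈ RelGS Lg G θ := by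
    intro x hx
    have h3 : Matrix.vecMul x ((Matrix.of A).map (Int.cast : ℤ → ℤ_[p])) ∈ RelGS Lg G θ := by
      intro v hv P hP
      obtain ⟨P', hP'1, -, hP'2⟩ := (hN' p Lg hLg F L).2 σ P
      have h4 := hx v hv P' (hP'1 v hP)
      simp only [κ_eq] at *
      have h5 : ∀ i, ∑ j, ((A i j : ℤ) : ℂ_[p]) * lam Lg P ((θ j : Lˣ) : L) = lam Lg P' ((θ i : Lˣ) : L) := by
        intro i
        have h6 : lam Lg P ((gL σ (θ i) ^ h : Lˣ) : L) = lam Lg P ((ev θ (A i) ^ h : Lˣ) : L) := by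
          rw [hA' i]
        rw [lam_pow (hadd v hv P hP), lam_pow (hadd v hv P hP), lam_ev (hadd v hv P hP)] at h6
        rw [hP'2, ← mul_left_cancel₀ hhC h6, gL_coe]
      have h7 : ∀ j, κ (Matrix.vecMul x ((Matrix.of A).map (Int.cast : ℤ → ℤ_[p])) j) =
          ∑ i, κ (x i) * ((A i j : ℤ) : ℂ_[p]) := by
        intro j
        show κ (∑ i, x i * ((A i j : ℤ) : ℤ_[p])) = _
        rw [map_sum]
        refine Finset.sum_congr rfl fun i _ => ?_
        rw [map_mul, map_intCast]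
      rw [← h4]
      calc ∑ j, κ (Matrix.vecMul x ((Matrix.of A).map (Int.cast : ℤ → ℤ_[p])) j) * lam Lg P ((θ j : Lˣ) : L)
          = ∑ j, ∑ i, κ (x i) * (((A i j : ℤ) : ℂ_[p]) * lam Lg P ((θ j : Lˣ) : L)) := by
            refine Finset.sum_congr rfl fun j _ => ?_
            rw [h7, Finset.sum_mul]
            refine Finset.sum_congr rfl fun i _ => ?_
            ring
        _ = ∑ i, ∑ j, κ (x i) * (((A i j : ℤ) : ℂ_[p]) * lam Lg P ((θ j : Lˣ) : L)) := Finset.sum_comm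
        _ = ∑ i, κ (x i) * lam Lg P' ((θ i : Lˣ) : L) := by
            refine Finset.sum_congr rfl fun i _ => ?_
            rw [← Finset.mul_sum, h5]
    have h4 : B.map (Int.cast : ℤ → ℤ_[p]) = (Matrix.of A).map (Int.cast : ℤ → ℤ_[p]) - 1 := by
      ext i j
      rw [hB]
      by_cases hij : i = j
      · subst hij; simp
      · simp [Matrix.one_apply_ne hij]
    rw [h4, Matrix.vecMul_sub, Matrix.vecMul_one]
    exact Submodule.sub_mem _ h3 hx
  have hsat : ∀ x : Fin n → ℤ_[p], (p : ℤ_[p]) • x ∈ RelGS Lg G θ → x ∈ RelGS Lg G θ := by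
    intro x hx v hv P hP
    have h1 := hx v hv P hP
    simp only [κ_eq] at *
    have h2 : (p : ℂ_[p]) * ∑ i, κ (x i) * lam Lg P ((θ i : Lˣ) : L) = 0 := by
      rw [← h1, Finset.mul_sum]
      refine Finset.sum_congr rfl fun i _ => ?_
      rw [Pi.smul_apply, smul_eq_mul, map_mul, map_natCast]
      ring
    rcases mul_eq_zero.1 h2 with h3 | h3
    · exact absurd h3 (by exact_mod_cast hp.out.ne_zero)
    · exact h3
  obtain ⟨x, hxR, hxB⟩ := hLAM p n m t B hsumB (RelGS Lg G θ) hstab hsat ⟨a, ha, hRel⟩ hmt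
  obtain ⟨Q, hQ⟩ := exists_quot hsumB
  choose W hW using fun j i => exists_rep (x j i)
  choose Y hY using hW
  -- combinations
  have hprod : ∀ c : Fin t → ℤ, ∏ j, ev θ (W j) ^ c j = ev θ (∑ j, c j • W j) := by
    intro c
    rw [ev_sum]
    exact Finset.prod_congr rfl fun j _ => (ev_smul θ (c j) (W j)).symm
  have hcY : ∀ (c : Fin t → ℤ) (i : Fin n), (∑ j, (c j : ℤ_[p]) • x j) i - (((∑ j, c j • W j) i : ℤ) : ℤ_[p]) =
      p * (∑ j, (c j : ℤ_[p]) • Y j) i := by
    intro c i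
    rw [Finset.sum_apply, Finset.sum_apply, Finset.sum_apply, Int.cast_sum, ← Finset.sum_sub_distrib, Finset.mul_sum]
    refine Finset.sum_congr rfl fun j _ => ?_
    rw [Pi.smul_apply, Pi.smul_apply, Pi.smul_apply, smul_eq_mul, smul_eq_mul, smul_eq_mul, Int.cast_mul]
    linear_combination (c j : ℤ_[p]) * hY j i
  refine ⟨fun j => ev θ (W j), fun j => hevN (W j), ?_, ?_⟩
  · -- independence
    intro c hcp η hη j heq
    rw [hprod c] at heq
    set V : Fin n → ℤ := ∑ j, c j • W j with hV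
    obtain ⟨b, hb⟩ := hgen η hη
    have hb' : η ^ h = ev θ b ^ h := hb
    have h1 : (ev θ V * η) ^ p = (gL σ η) ^ p := by
      apply Units.ext
      rw [Units.val_pow_eq_pow_val, Units.val_pow_eq_pow_val, Units.val_mul, heq, gL_coe, mul_pow, ← pow_mul,
        mul_comm j p, pow_mul, ← map_pow, hζ.pow_eq_one, map_one, one_pow, one_mul]
    have h2 : ev θ (V + b) ^ (h * p) = ev θ (Matrix.vecMul b (Matrix.of A)) ^ (h * p) := by
      rw [pow_mul, pow_mul, ← hstep b, ev_add, mul_pow, ← hb', ← map_pow, ← hb', map_pow, ← mul_pow, ← pow_mul,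
        ← pow_mul, mul_comm h p, pow_mul, pow_mul, h1]
    have h3 := ev_inj hθind (Nat.mul_pos hh hp.out.pos) h2
    apply hxB c hcp ((fun i => (b i : ℤ_[p])) +
      Matrix.vecMul (∑ j, (c j : ℤ_[p]) • Y j) (Q.map (Int.cast : ℤ → ℤ_[p])))
    have h5 : Matrix.vecMul (fun i => (b i : ℤ_[p])) (B.map (Int.cast : ℤ → ℤ_[p])) = fun i => ((V i : ℤ) : ℤ_[p]) := by
      have h6 : Matrix.vecMul b B = V := by
        rw [hB, Matrix.vecMul_sub, Matrix.vecMul_one, ← h3]; abel
      funext i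
      rw [← h6]
      show ∑ j, (b j : ℤ_[p]) * (B j i : ℤ_[p]) = ((∑ j, b j * B j i : ℤ) : ℤ_[p])
      push_cast
      rfl
    have h6 : (Q.map (Int.cast : ℤ → ℤ_[p])) * (B.map (Int.cast : ℤ → ℤ_[p])) =
        (p : Matrix (Fin n) (Fin n) ℤ_[p]) := by
      have h7 := congrArg (fun M : Matrix (Fin n) (Fin n) ℤ => M.map (Int.castRingHom ℤ_[p])) hQ
      simp only [Matrix.map_mul] at h7
      have h8 : (p : Matrix (Fin n) (Fin n) ℤ).map (Int.castRingHom ℤ_[p]) = (p : Matrix (Fin n) (Fin n) ℤ_[p]) := by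
        exact map_natCast (Int.castRingHom ℤ_[p]).mapMatrix p
      rw [h8] at h7
      exact h7
    rw [Matrix.add_vecMul, Matrix.vecMul_vecMul, h6, h5]
    funext i
    have h9 : Matrix.vecMul (∑ j, (c j : ℤ_[p]) • Y j) (p : Matrix (Fin n) (Fin n) ℤ_[p]) =
        (p : ℤ_[p]) • ∑ j, (c j : ℤ_[p]) • Y j := by
      have : (p : Matrix (Fin n) (Fin n) ℤ_[p]) = (p : ℤ_[p]) • (1 : Matrix (Fin n) (Fin n) ℤ_[p]) := by
        rw [Matrix.smul_one_eq_diagonal]
        rfl
      rw [this, Matrix.vecMul_smul, Matrix.vecMul_one]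
    rw [h9, Pi.add_apply, Pi.smul_apply, smul_eq_mul]
    linear_combination hcY c i
  · -- small values
    intro c N
    set V : Fin n → ℤ := ∑ j, c j • W j with hV
    set b : Fin n → ℤ_[p] := ∑ j, (c j : ℤ_[p]) • x j with hb
    have hbR : b ∈ RelGS Lg G θ := Submodule.sum_mem _ fun j _ => Submodule.smul_mem _ _ (hxR j)
    -- integers near `b`
    have happ : ∀ i, ∃ m' : ℤ, (p : ℤ_[p]) ^ (N + 1) ∣ b i - (m' : ℤ_[p]) := by
      intro i
      refine ⟨((b i).appr (N + 1) : ℕ), ?_⟩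
      have := PadicInt.appr_spec (N + 1) (b i)
      rw [Ideal.mem_span_singleton] at this
      exact_mod_cast this
    choose m' hm' using happ
    choose z hz using hm'
    have hex : ∀ i, ∃ n' : ℤ, m' i = V i + p * n' := by
      intro i
      have h1 : ((m' i - V i : ℤ) : ℤ_[p]) = (p : ℤ_[p]) ^ 1 * ((∑ j, (c j : ℤ_[p]) • Y j) i - (p : ℤ_[p]) ^ N * z i) := by
        have h2 := hcY c i
        have h3 := hz i
        push_cast
        rw [pow_succ] at h3
        linear_combination h2 - h3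
      obtain ⟨n', hn'⟩ := dvd_int (m := 1) ⟨_, h1⟩
      refine ⟨n', ?_⟩
      rw [pow_one] at hn'
      linear_combination hn'
    choose n' hn' using hex
    refine ⟨ev θ n', hevN n', fun v hv P hP => ?_⟩
    have hev : (∏ j, ev θ (W j) ^ c j) * ev θ n' ^ p = ev θ m' := by
      have h1 : m' = V + (p : ℤ) • n' := by
        funext i
        rw [hn' i]
        simp
      rw [hprod c, h1, ev_add, ev_smul, zpow_natCast]
    rw [hev, lam_ev (hadd v hv P hP)]
    choose r hr using fun i => hint v hv P hP ((θ i : Lˣ) : L) (θ i).ne_zero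
    have h1 := hbR v hv P hP
    simp only [κ_eq] at h1
    have h2 : ∑ i, (m' i : ℂ_[p]) * lam Lg P ((θ i : Lˣ) : L) = κ ((p : ℤ_[p]) ^ (N + 1) * -∑ i, z i * r i) := by
      have h3 : ∀ i, (m' i : ℂ_[p]) * lam Lg P ((θ i : Lˣ) : L) =
          κ (b i) * lam Lg P ((θ i : Lˣ) : L) - κ ((p : ℤ_[p]) ^ (N + 1) * (z i * r i)) := by
        intro i
        have h4 : (m' i : ℂ_[p]) = κ (b i) - κ ((p : ℤ_[p]) ^ (N + 1) * z i) := by
          rw [← hz i, map_sub, map_intCast]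
          ring
        rw [h4, hr i, map_mul, map_mul, map_mul]
        ring
      rw [Finset.sum_congr rfl fun i _ => h3 i, Finset.sum_sub_distrib, h1, zero_sub, ← map_sum, ← Finset.mul_sum,
        ← map_neg]
      congr 1
      ring
    rw [h2, map_mul, norm_mul, κ_norm (-∑ i, z i * r i), map_pow, map_natCast, norm_pow, pow_succ, mul_assoc]
    have h3 : ‖(p : ℂ_[p])‖ ≤ 1 := by
      have h4 : (p : ℂ_[p]) = κ (p : ℤ_[p]) := (map_natCast κ p).symm
      rw [h4, κ_norm]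
      exact PadicInt.norm_le_one _
    have h4 : ‖(p : ℂ_[p])‖ * ‖(-∑ i, z i * r i : ℤ_[p])‖ ≤ 1 :=
      mul_le_one₀ h3 (norm_nonneg _) (PadicInt.norm_le_one _)
    exact mul_le_of_le_one_right (pow_nonneg (norm_nonneg _) _) h4

/-- **GCR1** -/
theorem gcr1 : S_GQ → S_GN → S_GCR1 := gcr1' Pool.Agent.Q193.LK.lam

end Pool.Agent.Q142.GK
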