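import Pool.Agent.Q79.LS.CR2S
import Pool.Agent.Q7.GK.Stm

/-!
# Project GK (helper7), job GCR2: the classes
-/

set_option autoImplicit false
set_option linter.unusedSectionVars false

namespace Pool.Agent.Q142.GK

open NumberField IsDedekindDomain Filter Topology Finset
open Pool.Agent.Q7.LK Pool.Agent.Q22.LK
open Pool.Agent.Q7.LS (Ab Un nmU SUn NS IsBas Ao S_CTS S_CUS S_NSP)
open Pool.Agent.Q79.LS (norm_NS mem_SUn not_pow_norm)
open Pool.Agent.W289.SL (IsIwasawaLog)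
open Pool.Agent.Q7.GK

section one

variable {p : ℕ} [Fact p.Prime] {F L : Type} [Field F] [NumberField F] [Field L] [NumberField L] [Algebra F L]
  {ζ d : F}

/-- the local conditions for the norm of `y` -/
theorem cond_normG (hC : S_GCLS) (hT : S_CTS) (hU : S_CUS) (hN : S_NSP)
    (hp2 : p ≠ 2) {Lg : ℂ_[p] → ℂ_[p]} (hLg : IsIwasawaLog p Lg) (hζ : IsPrimitiveRoot ζ p)
    (hK : Kum p F L d) (hd : ¬ IsPow p d)
    {G : Set (HeightOneSpectrum (𝓞 F))} (hG : ∀ v ∈ G, Dp p v)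
    {σ : L ≃ₐ[F] L} (hσ : σ ≠ 1) {w : Lˣ} (hw : w ∈ NS L G)
    (hM : ∀ N : ℕ, ∃ η ∈ NS L G, ∀ v ∈ G, ∀ P : HeightOneSpectrum (𝓞 L), Ab v P →
      ‖lam Lg P ((w * η ^ p : Lˣ) : L)‖ ≤ ‖(p : ℂ_[p])‖ ^ N)
    {y : L} (hy0 : y ≠ 0) (hy : (w : L) * y = σ y) (v : HeightOneSpectrum (𝓞 F)) :
    AXG Lg G d v (Algebra.norm F y) := by
  have hN0 : Algebra.norm F y ≠ 0 := by
    rw [ne_eq, Algebra.norm_eq_zero_iff]; exact hy0
  have hun : ¬ (v ∈ G ∧ Lpw p v d) → Un v (w : L) := by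
    intro h
    by_cases hvG : v ∈ G
    · exact hN p hp2 F L ζ d hζ hK hd v (fun h1 => h ⟨hvG, h1⟩) w (norm_NS hw)
    · exact mem_SUn hw hvG
  refine ⟨hN0, ?_, ?_, ?_⟩
  · intro hvG hl
    refine hC p hp2 Lg hLg F L ζ d hζ hK hd σ hσ v (hG v hvG) hl w (fun N => ?_) y hy0 hy
    obtain ⟨η, -, h1⟩ := hM N
    exact ⟨η, fun P hP => h1 v hvG P hP⟩
  · intro _ h
    exact hU p hp2 F L ζ d hζ hK hd σ hσ v w (hun h) y hy0 hy
  · intro hv
    have h : ¬ (v ∈ G ∧ Lpw p v d) := fun h => hv (hG v h.1)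
    exact ⟨hN0, (hT p hp2 F L ζ d hζ hK hd σ hσ v hv w (hun h) y hy0 hy).1,
      (hT p hp2 F L ζ d hζ hK hd σ hσ v hv w (hun h) y hy0 hy).2⟩

end one

/-- **GCR2** -/
theorem gcr2 (hC : S_GCLS) (hT : S_CTS) (hU : S_CUS) (hN : S_NSP) : S_GCR2 := by
  intro p _ hp2 Lg hLg F L _ _ _ _ _ ζ d hζ hK hd G hG t σ hσ hW
  have hp : p.Prime := Fact.out
  obtain ⟨w, hw1, hw2, hM⟩ := hW
  have h90 : ∀ i, ∃ y : L, y ≠ 0 ∧ ((w i : Lˣ) : L) * y = σ y := by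
    intro i
    obtain ⟨hfr, ρ, hρ⟩ := hK
    obtain ⟨y, hy0, hy⟩ := hilbert90 hp hζ hfr hρ hd hσ (norm_NS (hw1 i))
    exact ⟨y, hy0, hy⟩
  choose y hy0 hy using h90
  let nz : L →*₀ F := { (Algebra.norm F : L →* F) with map_zero' := Algebra.norm_zero }
  have hnd : ∀ x x' : L, Algebra.norm F (x / x') = Algebra.norm F x / Algebra.norm F x' := fun x x' => map_div₀ nz x x'
  have hprod : ∀ C : Fin t → ℤ, ((∏ i, w i ^ C i : Lˣ) : L) = ∏ i, ((w i : Lˣ) : L) ^ C i := by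
    intro C
    rw [Units.coe_prod]
    refine Finset.prod_congr rfl fun i _ => ?_
    rw [Units.val_zpow_eq_zpow_val]
  have hyC0 : ∀ C : Fin t → ℤ, ∏ i, y i ^ C i ≠ 0 := fun C =>
    Finset.prod_ne_zero_iff.2 fun i _ => zpow_ne_zero _ (hy0 i)
  have hyC : ∀ C : Fin t → ℤ, ((∏ i, w i ^ C i : Lˣ) : L) * ∏ i, y i ^ C i = σ (∏ i, y i ^ C i) := by
    intro C
    rw [hprod, ← Finset.prod_mul_distrib, map_prod]
    refine Finset.prod_congr rfl fun i _ => ?_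
    rw [map_zpow₀, ← hy i, mul_zpow]
  have hwC : ∀ C : Fin t → ℤ, (∏ i, w i ^ C i : Lˣ) ∈ NS L G := fun C =>
    Subgroup.prod_mem _ fun i _ => Subgroup.zpow_mem _ (hw1 i) _
  have hcond : ∀ C : Fin t → ℤ, ∀ v, AXG Lg G d v (Algebra.norm F (∏ i, y i ^ C i)) := fun C =>
    cond_normG hC hT hU hN hp2 hLg hζ hK hd hG hσ (hwC C) (hM C) (hyC0 C) (hyC C)
  have hnp : ∀ C : Fin t → ℤ, (∃ i, ¬ (p : ℤ) ∣ C i) → ∀ j : ℕ, ¬ IsPow p (Algebra.norm F (∏ i, y i ^ C i) * d ^ j) :=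
    fun C hC j => not_pow_norm hp2 hζ hK hd hσ (hwC C) (hw2 C hC) (hyC0 C) (hyC C) j
  -- the nonzero classes
  have hcard : Fintype.card {c : Fin t → ZMod p // c ≠ 0} = p ^ t - 1 := by
    rw [Fintype.card_subtype_compl, Fintype.card_subtype_eq, Fintype.card_fun, ZMod.card, Fintype.card_fin]
  let e := (Fintype.equivFinOfCardEq hcard).symm
  let v : (Fin t → ZMod p) → Fin t → ℤ := fun c i => ((c i).val : ℤ)
  have hdvd : ∀ c c' : Fin t → ZMod p, c ≠ c' → ∃ i, ¬ (p : ℤ) ∣ v c i - v c' i := by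
    intro c c' hne
    by_contra hcon
    push Not at hcon
    apply hne
    funext i
    have h1 := (ZMod.intCast_zmod_eq_zero_iff_dvd (v c i - v c' i) p).2 (hcon i)
    simp only [v] at h1
    push_cast at h1
    rw [ZMod.natCast_zmod_val, ZMod.natCast_zmod_val] at h1
    exact sub_eq_zero.1 h1
  refine ⟨fun i => Algebra.norm F (∏ l, y l ^ v (e i).1 l), fun i => ⟨hcond _, hnp _ ?_⟩, ?_⟩
  · obtain ⟨l, hl⟩ := hdvd (e i).1 0 (e i).2
    refine ⟨l, ?_⟩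
    simpa [v] using hl
  · intro i i' hne j
    have h1 : Algebra.norm F (∏ l, y l ^ v (e i).1 l) / Algebra.norm F (∏ l, y l ^ v (e i').1 l) =
        Algebra.norm F (∏ l, y l ^ (fun l => v (e i).1 l - v (e i').1 l) l) := by
      rw [← hnd, ← Finset.prod_div_distrib]
      congr 1
      refine Finset.prod_congr rfl fun l _ => ?_
      rw [zpow_sub₀ (hy0 l)]
    show ¬ IsPow p (Algebra.norm F (∏ l, y l ^ v (e i).1 l) / Algebra.norm F (∏ l, y l ^ v (e i').1 l) * d ^ j)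
    rw [h1]
    refine hnp _ (hdvd _ _ ?_) j
    intro h2
    exact hne (e.injective (Subtype.ext h2))

end Pool.Agent.Q142.GK
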